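import Pool.Agent.Y171.Az5

set_option autoImplicit false

/-!
The number of domino tilings of the Aztec diamond of order `n` without the two unit squares centred
at `(-1/2, -1/2)` and `(1/2, 3/2)`, for every `n ≥ 2`.
-/

namespace Pool.Agent.Results.MP_b90a94_co.KnightDefect

open Pool.Agent.Helper848 Pool.Agent.Y171.Az

lemma cb_sq_le (m : ℕ) : m.centralBinom ^ 2 ≤ 16 ^ m := by
  have h1 : m.centralBinom ≤ 2 ^ (2 * m) := by
    rw [Nat.centralBinom_eq_two_mul_choose]
    exact Nat.choose_le_two_pow (2 * m) m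
  calc m.centralBinom ^ 2 ≤ (2 ^ (2 * m)) ^ 2 := Nat.pow_le_pow_left h1 2
    _ = 16 ^ m := by
      rw [← pow_mul, show (16 : ℕ) = 2 ^ 4 by norm_num, ← pow_mul]
      congr 1
      ring

/-- The complete list of the numbers `T(n)`, `n ≥ 2`, according to `n` modulo `4`. -/
theorem result (m : ℕ) :
    (1 ≤ m → numTilings (knightRegion (4 * m)) =
      2 ^ (8 * m ^ 2 - 6 * m - 1) * m * m.centralBinom ^ 2 * (16 ^ m + m.centralBinom ^ 2)) ∧
    (1 ≤ m → numTilings (knightRegion (4 * m + 1)) =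
      2 ^ (8 * m ^ 2 - 2 * m - 1) * (2 * m + 1) * m.centralBinom ^ 2 *
        (16 ^ m - m.centralBinom ^ 2)) ∧
    numTilings (knightRegion (4 * m + 2)) =
      2 ^ (8 * m ^ 2 + 6 * m + 1) * (2 * m + 1) * m.centralBinom ^ 2 ∧
    numTilings (knightRegion (4 * m + 3)) =
      2 ^ (8 * m ^ 2 + 10 * m + 1) * (m + 1) * (m + 1).centralBinom ^ 2 := by
  refine ⟨?_, ?_, ?_, ?_⟩
  · intro hm
    have h := T0 m hm
    unfold cb at h
    have hN : numTilings (knightRegion (4 * m)) * 2 ^ (8 * m + 1) =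
        2 ^ (8 * m ^ 2 + 2 * m) * m * m.centralBinom ^ 2 * (16 ^ m + m.centralBinom ^ 2) := by
      exact_mod_cast h
    have he : 8 * m ^ 2 + 2 * m = (8 * m ^ 2 - 6 * m - 1) + (8 * m + 1) := by
      have : m ≤ m ^ 2 := by nlinarith
      omega
    rw [he] at hN
    apply Nat.eq_of_mul_eq_mul_right (show 0 < 2 ^ (8 * m + 1) by positivity)
    rw [hN, pow_add 2 (8 * m ^ 2 - 6 * m - 1) (8 * m + 1)]
    ring
  · intro hm
    have h := T1 m hm
    unfold cb at h
    have hN : numTilings (knightRegion (4 * m + 1)) * 2 ^ (8 * m + 2) =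
        2 ^ (8 * m ^ 2 + 6 * m + 1) * (2 * m + 1) * m.centralBinom ^ 2 *
          (16 ^ m - m.centralBinom ^ 2) := by
      have h2 : (((16 ^ m - m.centralBinom ^ 2 : ℕ)) : ℚ) = 16 ^ m - (m.centralBinom : ℚ) ^ 2 := by
        rw [Nat.cast_sub (cb_sq_le m)]
        push_cast
        ring
      rw [← h2] at h
      exact_mod_cast h
    have he : 8 * m ^ 2 + 6 * m + 1 = (8 * m ^ 2 - 2 * m - 1) + (8 * m + 2) := by
      have : m ≤ m ^ 2 := by nlinarith
      omega
    rw [he] at hN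
    apply Nat.eq_of_mul_eq_mul_right (show 0 < 2 ^ (8 * m + 2) by positivity)
    rw [hN, pow_add 2 (8 * m ^ 2 - 2 * m - 1) (8 * m + 2)]
    ring
  · have h := T2 m
    unfold cb at h
    exact_mod_cast h
  · have h := T3 m
    unfold cb at h
    exact_mod_cast h

end Pool.Agent.Results.MP_b90a94_co.KnightDefect
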